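import Mathlib
import Pool.Agent.H798.BV.Stm5

set_option autoImplicit false

/-!
# MP_172a45_an, piece `S_C2c`: the case `|s'| ≥ ε`
-/

namespace Pool.Agent.H124.BV

open Pool.Agent.H798.BV

/-- Rotating all `l k`. -/
theorem sR_rot {m : ℕ} (L : ℝ) (l : Fin m → ℂ) {ω : ℂ} (hω : ‖ω‖ = 1) :
    sR L (fun k => ω * l k) = ω * sR L l := by
  unfold sR
  have h : ∀ k, ‖ω * l k‖ = ‖l k‖ := fun k => by rw [norm_mul, hω, one_mul]
  simp only [h]
  rw [← Finset.mul_sum, mul_div_assoc]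

theorem bB_rot {m : ℕ} (L : ℝ) (l : Fin m → ℂ) {ω : ℂ} (hω : ‖ω‖ = 1) :
    bB L (fun k => ω * l k) = bB L l := by
  unfold bB
  have h : ∀ k, ‖ω * l k‖ = ‖l k‖ := fun k => by rw [norm_mul, hω, one_mul]
  simp only [h]

theorem norm_sR_le {m : ℕ} (L : ℝ) (l : Fin m → ℂ) (hl : ∑ k, ‖l k‖ ≤ m) : ‖sR L l‖ ≤ 1 := by
  unfold sR
  rw [norm_div, Complex.norm_natCast]
  have h1 : ‖∑ k ∈ Finset.univ.filter (fun k => ¬ L < ‖l k‖), l k‖ ≤ m := by
    refine (norm_sum_le _ _).trans (le_trans ?_ hl)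
    exact Finset.sum_le_sum_of_subset_of_nonneg (Finset.filter_subset _ _)
      fun _ _ _ => norm_nonneg _
  rcases Nat.eq_zero_or_pos m with h | h
  · subst h
    simp
  · have h0 : (0 : ℝ) < m := by exact_mod_cast h
    rw [div_le_one h0]
    exact h1

theorem exp_neg_le {x : ℝ} (hx : 0 < x) : Real.exp (-x) ≤ 1 / x := by
  rw [Real.exp_neg, one_div]
  refine inv_anti₀ hx ?_
  have := Real.add_one_le_exp x
  linarith

theorem t_C2c (h1 : S_PT) (h2 : S_LB) : S_C2c := by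
  intro r κ ε hr0 hr1 hκ0 hκ1 hε0 hε1
  have hr : 0 < 1 - r := by linarith
  have hκ : 0 < 1 - κ := by linarith
  set L : ℝ := 2 / (1 - r) with hL
  have hL2 : 2 ≤ L := by
    rw [hL, le_div_iff₀ hr]
    linarith
  have hL0 : 0 < L := by linarith
  set ρ : ℝ := ε * (1 - κ) / (2 * L) with hρ
  have hρ0 : 0 < ρ := by positivity
  have hρL : ρ * L = ε * (1 - κ) / 2 := by
    rw [hρ]
    field_simp
  have hρr : ρ ≤ (1 - r) / 8 := by
    have e1 : ρ * L ≤ 1 / 8 := by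
      rw [hρL]
      nlinarith
    have e2 : (1 - r) * L = 2 := by
      rw [hL]
      field_simp
    nlinarith
  set ν : ℝ := (1 - κ) / 2 * ε with hν
  have hν0 : 0 < ν := by positivity
  set q : ℝ := ρ * ε * (1 - r) / 40 with hq
  have hq0 : 0 < q := by positivity
  have hq1 : q ≤ 1 := by
    have e1 : ρ ≤ 1 := by linarith
    have e2 : ρ * ε ≤ 1 := mul_le_one₀ e1 hε0.le (by linarith)
    have e3 : ρ * ε * (1 - r) ≤ 1 := mul_le_one₀ e2 hr.le (by linarith)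
    rw [hq]
    linarith
  refine ⟨q ^ 2, by positivity, pow_le_one₀ hq0.le hq1,
    ⌈16 * L / (ν ^ 3 * (1 - κ))⌉₊ + ⌈8 / (ν ^ 2 * ρ * (1 - κ))⌉₊ + ⌈96 / (ρ * ε * (1 - κ))⌉₊ + 1,
    fun m l δ hm hδ0 hδ hl hB hE hs => ?_⟩
  have hm1 : 1 ≤ m := by omega
  have hm0 : (0 : ℝ) < m := by exact_mod_cast hm1
  have m1 : 16 * L / (ν ^ 3 * (1 - κ)) ≤ m :=
    (Nat.le_ceil _).trans (by exact_mod_cast (by omega : ⌈16 * L / (ν ^ 3 * (1 - κ))⌉₊ ≤ m))
  have m2 : 8 / (ν ^ 2 * ρ * (1 - κ)) ≤ m :=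
    (Nat.le_ceil _).trans (by exact_mod_cast (by omega : ⌈8 / (ν ^ 2 * ρ * (1 - κ))⌉₊ ≤ m))
  have m3 : 96 / (ρ * ε * (1 - κ)) ≤ m :=
    (Nat.le_ceil _).trans (by exact_mod_cast (by omega : ⌈96 / (ρ * ε * (1 - κ))⌉₊ ≤ m))
  set s : ℂ := sR L l with hsd
  have hs0 : 0 < ‖s‖ := by linarith
  have hs1 : ‖s‖ ≤ 1 := norm_sR_le L l hl
  set ω : ℂ := (starRingEnd ℂ) s / ((‖s‖ : ℝ) : ℂ) with hωd
  have hω : ‖ω‖ = 1 := by
    rw [hωd, norm_div, Complex.norm_real, Real.norm_of_nonneg hs0.le, RCLike.norm_conj]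
    exact div_self hs0.ne'
  have hωs : ω * s = ((‖s‖ : ℝ) : ℂ) := by
    have e : ((‖s‖ : ℝ) : ℂ) ≠ 0 := by exact_mod_cast hs0.ne'
    rw [hωd, div_mul_eq_mul_div, div_eq_iff e, mul_comm, Complex.mul_conj, Complex.normSq_eq_norm_sq]
    push_cast
    ring
  set l' : Fin m → ℂ := fun k => ω * l k with hl'
  have hn : ∀ k, ‖l' k‖ = ‖l k‖ := fun k => by
    rw [hl']
    simp only [norm_mul, hω, one_mul]
  have hs' : sR L l' = ((‖s‖ : ℝ) : ℂ) := by rw [hl', sR_rot L l hω, ← hsd, hωs]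
  have hre : (sR L l').re = ‖s‖ := by rw [hs', Complex.ofReal_re]
  have hno : ‖sR L l'‖ = ‖s‖ := by rw [hs', Complex.norm_real, Real.norm_of_nonneg hs0.le]
  have hB' : bB L l' ≤ κ * (sR L l').re := by
    rw [hre, hl', bB_rot L l hω]
    refine hB.trans (mul_le_mul_of_nonneg_left (Complex.re_le_norm _) hκ0.le)
  set A : Finset (Fin m) := Finset.univ.filter (fun k => ¬ L < ‖l' k‖) with hA
  have hAL : ∀ k ∈ A, ‖l' k‖ ≤ L := fun k hk => not_lt.1 (Finset.mem_filter.1 hk).2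
  have hAs : ∑ k ∈ A, ‖l' k‖ ≤ m := by
    refine le_trans (Finset.sum_le_sum_of_subset_of_nonneg (Finset.filter_subset _ _)
      fun _ _ _ => norm_nonneg _) ?_
    simp only [hn]
    exact hl
  have hsA : (∑ k ∈ A, l' k) / m = sR L l' := rfl
  -- pointwise bounds
  have hP : ∀ τ : ℝ, 0 ≤ τ → τ ≤ ρ →
      ‖∏ k ∈ A, (1 - (τ : ℂ) * l' k) - Complex.exp (-((m * τ : ℝ) * sR L l'))‖ ≤
        m * τ ^ 2 * L * Real.exp (-(m * τ * ((1 + κ) / 2 * (sR L l').re))) ∧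
      ‖∏ k ∈ A, (1 - (τ : ℂ) * l' k)‖ ≤ Real.exp (-(m * τ * (sR L l').re / 2)) := by
    intro τ hτ0 hτ
    have e1 : τ * L ≤ ρ * L := mul_le_mul_of_nonneg_right hτ hL0.le
    have e2 : τ * L ≤ (1 - κ) / 2 * ‖s‖ := by
      rw [hρL] at e1
      nlinarith
    have e3 : τ * L ≤ 1 / 4 := by nlinarith
    have h := h1 m l' A L κ τ hm1 (by linarith) hκ0.le hκ1.le hτ0 hAL hAs e3
      (by rw [hsA, hre]; exact hs0.le)
    rw [hsA] at h
    exact h.1 (by rw [hre]; exact e2)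
  have hLB := h2 m l' L κ ρ hm1 (by linarith) hκ0.le hκ1 hρ0 (by rw [hno]; exact hs1)
    (by rw [hre]; exact hs0) hB' (fun τ h h' => (hP τ h h').1)
  have hEP := hE ω ρ hω hρ0 hρr
  rw [hre, hno] at hLB
  -- upper bound of the integral
  have hEP2 : ∏ k ∈ Finset.univ.filter (fun k => ¬ 2 / (1 - r) < ‖l k‖), ‖1 - (ρ : ℂ) * (ω * l k)‖ ≤
      Real.exp (-(m * ρ * ε / 2)) := by
    have e1 : Finset.univ.filter (fun k => ¬ 2 / (1 - r) < ‖l k‖) = A := by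
      rw [hA]
      simp only [hn, ← hL]
    rw [e1, ← norm_prod]
    refine (hP ρ hρ0.le le_rfl).2.trans ?_
    rw [hre]
    refine Real.exp_le_exp.2 ?_
    have : m * ρ * ε ≤ m * ρ * ‖s‖ := mul_le_mul_of_nonneg_left hs (by positivity)
    linarith
  have hsq : Real.sqrt δ ≤ q := by
    rw [Real.sqrt_le_left hq0.le]
    exact hδ
  have hup : (m : ℝ) * ‖∫ τ in (0:ℝ)..ρ, ∏ k, (1 - (τ : ℂ) * l' k)‖ ≤ 3 * (1 / (m * ρ * ε / 4)) := by
    have e1 : ‖∫ τ in (0:ℝ)..ρ, ∏ k, (1 - (τ : ℂ) * l' k)‖ ≤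
        3 / (m + 1) * Real.exp (m * (10 / (1 - r) * Real.sqrt δ)) *
          Real.exp (-(m * ρ * ε / 2)) := by
      refine hEP.trans (mul_le_mul_of_nonneg_left hEP2 (by positivity))
    have e2 : Real.exp (m * (10 / (1 - r) * Real.sqrt δ)) * Real.exp (-(m * ρ * ε / 2)) ≤
        Real.exp (-(m * ρ * ε / 4)) := by
      rw [← Real.exp_add]
      refine Real.exp_le_exp.2 ?_
      have e3 : 10 / (1 - r) * Real.sqrt δ ≤ ρ * ε / 4 := by
        refine (mul_le_mul_of_nonneg_left hsq (by positivity)).trans (le_of_eq ?_)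
        rw [hq]
        field_simp
        ring
      have e4 := mul_le_mul_of_nonneg_left e3 hm0.le
      nlinarith
    have e5 := exp_neg_le (x := m * ρ * ε / 4) (by positivity)
    calc (m : ℝ) * ‖∫ τ in (0:ℝ)..ρ, ∏ k, (1 - (τ : ℂ) * l' k)‖
        ≤ m * (3 / (m + 1) * Real.exp (m * (10 / (1 - r) * Real.sqrt δ)) *
          Real.exp (-(m * ρ * ε / 2))) := mul_le_mul_of_nonneg_left e1 hm0.le
      _ = (m / (m + 1)) * 3 * (Real.exp (m * (10 / (1 - r) * Real.sqrt δ)) *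
          Real.exp (-(m * ρ * ε / 2))) := by ring
      _ ≤ 1 * 3 * Real.exp (-(m * ρ * ε / 4)) := by
          refine mul_le_mul (mul_le_mul_of_nonneg_right ?_ (by norm_num)) e2 (by positivity)
            (by norm_num)
          rw [div_le_one (by positivity)]
          linarith
      _ ≤ 3 * (1 / (m * ρ * ε / 4)) := by
          rw [one_mul]
          exact mul_le_mul_of_nonneg_left e5 (by norm_num)
  -- numbers
  have b1 : 1 - κ ≤ (1 - κ) / ‖s‖ := by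
    rw [le_div_iff₀ hs0]
    nlinarith
  have hνs : ν ≤ (1 - κ) / 2 * ‖s‖ := by
    rw [hν]
    exact mul_le_mul_of_nonneg_left hs (by linarith)
  have b2 : 2 * L / (m * ((1 - κ) / 2 * ‖s‖) ^ 3) ≤ (1 - κ) / 8 := by
    have e1 : 2 * L / (m * ((1 - κ) / 2 * ‖s‖) ^ 3) ≤ 2 * L / (m * ν ^ 3) := by
      refine div_le_div_of_nonneg_left (by positivity) (by positivity) ?_
      exact mul_le_mul_of_nonneg_left (pow_le_pow_left₀ hν0.le hνs 3) hm0.le
    refine e1.trans ?_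
    rw [div_le_iff₀ (by positivity)] at m1 ⊢
    nlinarith
  have b3 : 1 / ((1 - κ) / 2 * ‖s‖) * Real.exp (-(m * ρ * ((1 - κ) / 2 * ‖s‖))) ≤ (1 - κ) / 8 := by
    have e1 : 1 / ((1 - κ) / 2 * ‖s‖) ≤ 1 / ν := one_div_le_one_div_of_le hν0 hνs
    have e2 : Real.exp (-(m * ρ * ((1 - κ) / 2 * ‖s‖))) ≤ 1 / (m * ρ * ν) := by
      refine le_trans (Real.exp_le_exp.2 ?_) (exp_neg_le (by positivity))
      have := mul_le_mul_of_nonneg_left hνs (by positivity : (0 : ℝ) ≤ m * ρ)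
      linarith
    refine (mul_le_mul e1 e2 (Real.exp_pos _).le (by positivity)).trans ?_
    rw [div_le_iff₀ (by positivity)] at m2
    rw [show 1 / ν * (1 / (m * ρ * ν)) = 1 / (m * (ν ^ 2 * ρ)) by field_simp]
    rw [div_le_iff₀ (by positivity)]
    nlinarith
  have b4 : 3 * (1 / (m * ρ * ε / 4)) ≤ (1 - κ) / 8 := by
    rw [show 3 * (1 / (m * ρ * ε / 4)) = 12 / (m * (ρ * ε)) by field_simp; norm_num]
    rw [div_le_iff₀ (by positivity)] at m3 ⊢
    nlinarith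
  linarith

end Pool.Agent.H124.BV
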